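import Pool.Agent.Y496.BA.A

/-!
In a Hausdorff space with finite-dimensional bounded sets, Gâteaux differentiability of continuous
convex functions implies Fréchet differentiability.
-/

set_option autoImplicit false

open Set Cardinal Topology Filter

namespace Pool.Agent.Y496.BA

variable {E : Type} [AddCommGroup E] [Module ℝ E] [TopologicalSpace E] [IsTopologicalAddGroup E]
  [ContinuousSMul ℝ E]

lemma bdd_sub (M : Submodule ℝ E) {B : Set E} (hB : Bornology.IsVonNBounded ℝ B) :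
    Bornology.IsVonNBounded ℝ ((↑) ⁻¹' B : Set M) := by
  apply Bornology.isVonNBounded_of_smul_tendsto_zero (ε := fun n : ℕ => 1 / ((n : ℝ) + 1))
    (l := atTop) (Eventually.of_forall fun n => by positivity)
  intro x hx
  rw [tendsto_subtype_rng]
  exact hB.smul_tendsto_zero (x := fun n => (x n : E)) (Eventually.of_forall hx)
    tendsto_one_div_add_atTop_nhds_zero_nat

theorem frechet_of_gateaux [T2Space E]
    (hfd : ∀ B : Set E, Bornology.IsVonNBounded ℝ B → FiniteDimensional ℝ (Submodule.span ℝ B))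
    {D : Set E} (hD : IsOpen D) {f : E → ℝ} (hf : ContinuousOn f D)
    (hc : ConvexOn ℝ D f) {z : E} (hz : z ∈ D) (h : GateauxAt D f z) : FrechetAt D f z := by
  obtain ⟨φ, hφ⟩ := h
  refine ⟨φ, fun B hB ε hε => ?_⟩
  have := hfd B hB
  let M : Submodule ℝ E := Submodule.span ℝ B
  let b := Module.finBasis ℝ M
  let eq : M ≃L[ℝ] (Fin (Module.finrank ℝ M) → ℝ) := b.equivFunL
  let ι : (Fin (Module.finrank ℝ M) → ℝ) →L[ℝ] E := M.subtypeL.comp eq.symm.toContinuousLinearMap
  let D' : Set (Fin (Module.finrank ℝ M) → ℝ) := {v | z + ι v ∈ D}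
  have hcont : Continuous fun v => z + ι v := continuous_const.add ι.continuous
  have hD' : IsOpen D' := hD.preimage hcont
  have hf' : ContinuousOn (fun v => f (z + ι v)) D' := hf.comp hcont.continuousOn fun v hv => hv
  have hcomb : ∀ (u v : Fin (Module.finrank ℝ M) → ℝ) (a c : ℝ), a + c = 1 →
      z + ι (a • u + c • v) = a • (z + ι u) + c • (z + ι v) := by
    intro u v a c hac
    rw [map_add, map_smul, map_smul, smul_add, smul_add]
    have : z = a • z + c • z := by rw [← add_smul, hac, one_smul]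
    nth_rewrite 1 [this]
    abel
  have hc' : ConvexOn ℝ D' (fun v => f (z + ι v)) := by
    refine ⟨fun u hu v hv a c ha hc0 hac => ?_, fun u hu v hv a c ha hc0 hac => ?_⟩
    · change z + ι (a • u + c • v) ∈ D
      rw [hcomb u v a c hac]
      exact hc.1 hu hv ha hc0 hac
    · change f (z + ι (a • u + c • v)) ≤ _
      rw [hcomb u v a c hac]
      exact hc.2 hu hv ha hc0 hac
  have h0 : (0 : Fin (Module.finrank ℝ M) → ℝ) ∈ D' := by
    change z + ι 0 ∈ D
    rwa [map_zero, add_zero]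
  have hφ' : ∀ x : Fin (Module.finrank ℝ M) → ℝ, ∀ ε > 0, ∃ δ > 0, ∀ t : ℝ, 0 < |t| → |t| < δ →
      0 + t • x ∈ D' ∧ |(f (z + ι (0 + t • x)) - f (z + ι 0)) / t - (φ.comp ι) x| < ε := by
    intro x ε hε
    obtain ⟨δ, hδ, h⟩ := hφ (ι x) ε hε
    refine ⟨δ, hδ, fun t ht1 ht2 => ?_⟩
    obtain ⟨h1, h2⟩ := h t ht1 ht2
    refine ⟨?_, ?_⟩
    · change z + ι (0 + t • x) ∈ D
      rwa [zero_add, map_smul]
    · rw [zero_add, map_smul, map_zero, add_zero]
      exact h2
  have hTB : TotallyBounded (eq '' ((↑) ⁻¹' B : Set M)) := by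
    have h1 : Bornology.IsVonNBounded ℝ (eq '' ((↑) ⁻¹' B : Set M)) :=
      (bdd_sub M hB).image eq.toContinuousLinearMap
    have h2 := NormedSpace.isVonNBounded_iff ℝ |>.1 h1
    exact h2.isCompact_closure.totallyBounded.subset subset_closure
  obtain ⟨δ, hδ, h⟩ := unif hD' hf' hc' h0 hφ' hTB hε
  refine ⟨δ, hδ, fun t ht1 ht2 x hx => ?_⟩
  have hxM : x ∈ M := Submodule.subset_span hx
  obtain ⟨h1, h2⟩ := h t ht1 ht2 (eq ⟨x, hxM⟩) ⟨⟨x, hxM⟩, hx, rfl⟩
  have h3 : ι (eq ⟨x, hxM⟩) = x := by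
    simp [ι]
  refine ⟨?_, ?_⟩
  · change z + ι (0 + t • eq ⟨x, hxM⟩) ∈ D at h1
    rwa [zero_add, map_smul, h3] at h1
  · simp only [zero_add, map_smul, map_zero, add_zero, ContinuousLinearMap.comp_apply, h3] at h2
    exact h2

end Pool.Agent.Y496.BA
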