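import Pool.Agent.H647R3.BaireC

/-!
Differentiability of continuous convex functions along a continuous linear surjection from a
space with finite-dimensional bounded sets onto a Banach space.
-/

set_option autoImplicit false

open Set Cardinal Topology Filter

namespace Pool.Agent.Y496.BA

section defs

variable {E : Type} [AddCommGroup E] [Module ℝ E] [TopologicalSpace E]

/-- `f : D → ℝ` (given by a function on `E`) is Fréchet differentiable at `x₀`: there is a
continuous linear `φ` with `(f (x₀ + t x) - f x₀) / t → φ x` uniformly for `x` in every bounded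
set. -/
def FrechetAt (D : Set E) (f : E → ℝ) (x₀ : E) : Prop :=
  ∃ φ : E →L[ℝ] ℝ, ∀ B : Set E, Bornology.IsVonNBounded ℝ B → ∀ ε > 0, ∃ δ > 0,
    ∀ t : ℝ, 0 < |t| → |t| < δ →
      ∀ x ∈ B, x₀ + t • x ∈ D ∧ |(f (x₀ + t • x) - f x₀) / t - φ x| < ε

/-- Gâteaux differentiability: the same with `B` a singleton. -/
def GateauxAt (D : Set E) (f : E → ℝ) (x₀ : E) : Prop :=
  ∃ φ : E →L[ℝ] ℝ, ∀ x : E, ∀ ε > 0, ∃ δ > 0,
    ∀ t : ℝ, 0 < |t| → |t| < δ →
      x₀ + t • x ∈ D ∧ |(f (x₀ + t • x) - f x₀) / t - φ x| < ε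

variable (E) in
/-- Asplund: every continuous convex function on a nonempty open convex set is Fréchet
differentiable at each point of some dense `Gδ` subset of the set. -/
def IsAsplund : Prop :=
  ∀ D : Set E, D.Nonempty → IsOpen D → Convex ℝ D → ∀ f : E → ℝ, ContinuousOn f D →
    ConvexOn ℝ D f → ∃ S : Set E, S ⊆ D ∧ IsGδ S ∧ D ⊆ closure S ∧ ∀ x ∈ S, FrechetAt D f x

variable (E) in
/-- Gâteaux differentiability space: every continuous convex function on a nonempty open convex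
set is Gâteaux differentiable at the points of a dense subset of the set. -/
def IsGDS : Prop :=
  ∀ D : Set E, D.Nonempty → IsOpen D → Convex ℝ D → ∀ f : E → ℝ, ContinuousOn f D →
    ConvexOn ℝ D f → ∃ S : Set E, S ⊆ D ∧ D ⊆ closure S ∧ ∀ x ∈ S, GateauxAt D f x

lemma FrechetAt.gateaux {D : Set E} {f : E → ℝ} {x₀ : E} (h : FrechetAt D f x₀) [ContinuousSMul ℝ E] [IsTopologicalAddGroup E] :
    GateauxAt D f x₀ := by
  obtain ⟨φ, hφ⟩ := h
  refine ⟨φ, fun x ε hε => ?_⟩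
  obtain ⟨δ, hδ, h⟩ := hφ {x} (Bornology.isVonNBounded_singleton x) ε hε
  exact ⟨δ, hδ, fun t ht1 ht2 => h t ht1 ht2 x rfl⟩

lemma IsAsplund.gds [ContinuousSMul ℝ E] [IsTopologicalAddGroup E] (h : IsAsplund E) :
    IsGDS E := by
  intro D h1 h2 h3 f h4 h5
  obtain ⟨S, hS1, -, hS2, hS3⟩ := h D h1 h2 h3 f h4 h5
  exact ⟨S, hS1, hS2, fun x hx => (hS3 x hx).gateaux⟩

end defs

variable {X : Type} [NormedAddCommGroup X] [NormedSpace ℝ X]

/-- local Lipschitz bound -/
lemma exists_lip {D : Set X} (hD : IsOpen D) {f : X → ℝ} (hf : ContinuousOn f D)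
    (hc : ConvexOn ℝ D f) {x₀ : X} (hx : x₀ ∈ D) :
    ∃ L r : ℝ, 0 ≤ L ∧ 0 < r ∧ Metric.ball x₀ r ⊆ D ∧
      ∀ a ∈ Metric.ball x₀ r, ∀ b ∈ Metric.ball x₀ r, |f a - f b| ≤ L * ‖a - b‖ := by
  have h1 := (hc.locallyLipschitzOn_iff_continuousOn hD).2 hf
  obtain ⟨K, t, ht, hK⟩ := h1 hx
  rw [hD.nhdsWithin_eq hx] at ht
  obtain ⟨r, hr, hrt⟩ := Metric.mem_nhds_iff.1 (Filter.inter_mem ht (hD.mem_nhds hx))
  refine ⟨K, r, K.2, hr, fun y hy => (hrt hy).2, fun a ha b hb => ?_⟩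
  have := hK.dist_le_mul a (hrt ha).1 b (hrt hb).1
  rwa [Real.dist_eq, dist_eq_norm] at this

/-- Gateaux differentiability is uniform on totally bounded sets. -/
lemma unif {D : Set X} (hD : IsOpen D) {f : X → ℝ} (hf : ContinuousOn f D)
    (hc : ConvexOn ℝ D f) {x₀ : X} (hx : x₀ ∈ D) {φ : X →L[ℝ] ℝ}
    (hφ : ∀ x : X, ∀ ε > 0, ∃ δ > 0, ∀ t : ℝ, 0 < |t| → |t| < δ →
      x₀ + t • x ∈ D ∧ |(f (x₀ + t • x) - f x₀) / t - φ x| < ε)
    {B : Set X} (hB : TotallyBounded B) {ε : ℝ} (hε : 0 < ε) :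
    ∃ δ > 0, ∀ t : ℝ, 0 < |t| → |t| < δ →
      ∀ x ∈ B, x₀ + t • x ∈ D ∧ |(f (x₀ + t • x) - f x₀) / t - φ x| < ε := by
  classical
  obtain ⟨L, r, hL, hr, hrD, hlip⟩ := exists_lip hD hf hc hx
  obtain ⟨M, hM⟩ := hB.isBounded.exists_norm_le
  have hM0 : 0 < |M| + 2 := by positivity
  set η : ℝ := min 1 (ε / (2 * (L + ‖φ‖ + 1))) with hη
  have hη0 : 0 < η := lt_min one_pos (by positivity)
  obtain ⟨N, hNfin, hN⟩ := Metric.totallyBounded_iff.1 hB η hη0
  choose δ hδ1 hδ2 using fun x => hφ x (ε / 2) (half_pos hε)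
  obtain ⟨δ₀, hδ₀, hδ₀'⟩ : ∃ δ₀ > 0, ∀ y ∈ hNfin.toFinset, δ₀ ≤ δ y := by
    induction hNfin.toFinset using Finset.induction_on with
    | empty => exact ⟨1, one_pos, by simp⟩
    | insert y s _ ih =>
      obtain ⟨e, he, h⟩ := ih
      refine ⟨min e (δ y), lt_min he (hδ1 y), ?_⟩
      intro z hz
      rw [Finset.mem_insert] at hz
      rcases hz with rfl | hz
      · exact min_le_right _ _
      · exact (min_le_left _ _).trans (h z hz)
  refine ⟨min δ₀ (r / (|M| + 2)), lt_min hδ₀ (by positivity), fun t ht1 ht2 x hxB => ?_⟩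
  have ht3 : |t| < δ₀ := ht2.trans_le (min_le_left _ _)
  have ht4 : |t| * (|M| + 2) < r := by
    have := ht2.trans_le (min_le_right _ _)
    rwa [lt_div_iff₀ hM0] at this
  have hball : ∀ y : X, ‖y‖ ≤ |M| + 1 → x₀ + t • y ∈ Metric.ball x₀ r := by
    intro y hy
    rw [Metric.mem_ball, dist_eq_norm, add_sub_cancel_left, norm_smul, Real.norm_eq_abs]
    calc |t| * ‖y‖ ≤ |t| * (|M| + 1) := by gcongr
      _ < |t| * (|M| + 2) := by
        apply mul_lt_mul_of_pos_left _ ht1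
        linarith
      _ < r := ht4
  have hxn : ‖x‖ ≤ |M| := (hM x hxB).trans (le_abs_self M)
  obtain ⟨y, hyN, hxy⟩ := mem_iUnion₂.1 (hN hxB)
  rw [Metric.mem_ball, dist_eq_norm] at hxy
  have hxy1 : ‖x - y‖ < 1 := hxy.trans_le (min_le_left _ _)
  have hyn : ‖y‖ ≤ |M| + 1 := by
    have : ‖y‖ ≤ ‖x‖ + ‖x - y‖ := by
      have h := norm_sub_norm_le y x
      rw [norm_sub_rev y x] at h
      linarith
    linarith
  refine ⟨hrD (hball x (by linarith)), ?_⟩
  have h1 := (hδ2 y t ht1 (ht3.trans_le (hδ₀' y (hNfin.mem_toFinset.2 hyN)))).2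
  have h2 := hlip _ (hball x (by linarith)) _ (hball y hyn)
  have h3 : (x₀ + t • x) - (x₀ + t • y) = t • (x - y) := by
    rw [smul_sub]; abel
  rw [h3, norm_smul, Real.norm_eq_abs] at h2
  have h4 : |(f (x₀ + t • x) - f (x₀ + t • y)) / t| ≤ L * ‖x - y‖ := by
    rw [abs_div, div_le_iff₀ ht1]
    linarith [h2, mul_comm |t| ‖x - y‖, mul_assoc L ‖x - y‖ |t|,
      congrArg (fun a => L * a) (mul_comm |t| ‖x - y‖)]
  have h5 : |φ y - φ x| ≤ ‖φ‖ * ‖x - y‖ := by
    rw [← map_sub, ← norm_sub_rev y x, ← Real.norm_eq_abs]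
    exact φ.le_opNorm _
  have h6 : (L + ‖φ‖) * ‖x - y‖ < ε / 2 := by
    have h7 : ‖x - y‖ < ε / (2 * (L + ‖φ‖ + 1)) := hxy.trans_le (min_le_right _ _)
    have h8 : 0 < L + ‖φ‖ + 1 := by positivity
    rw [lt_div_iff₀ (by positivity)] at h7
    nlinarith [norm_nonneg (x - y), norm_nonneg φ]
  have h9 : (f (x₀ + t • x) - f x₀) / t - φ x =
      (f (x₀ + t • x) - f (x₀ + t • y)) / t + ((f (x₀ + t • y) - f x₀) / t - φ y) +
        (φ y - φ x) := by
    ring
  rw [h9]
  calc _ ≤ |(f (x₀ + t • x) - f (x₀ + t • y)) / t| + |(f (x₀ + t • y) - f x₀) / t - φ y| +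
        |φ y - φ x| := abs_add_three _ _ _
    _ < ε := by nlinarith

variable {E : Type} [AddCommGroup E] [Module ℝ E] [TopologicalSpace E]

/-- `π : E → X` lifts differentiability: for every continuous convex function `f` on an open convex set
`D` of `X`, Fréchet and Gâteaux differentiability of `f ∘ π` at `z` are both equivalent to Gâteaux
differentiability of `f` at `π z`. -/
def Lifts (π : E →L[ℝ] X) : Prop :=
  ∀ D : Set X, IsOpen D → Convex ℝ D → ∀ f : X → ℝ, ContinuousOn f D → ConvexOn ℝ D f →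
    ∀ z, π z ∈ D →
      (FrechetAt (π ⁻¹' D) (fun y => f (π y)) z ↔ GateauxAt D f (π z)) ∧
      (GateauxAt (π ⁻¹' D) (fun y => f (π y)) z ↔ GateauxAt D f (π z))

theorem gateaux_down {π : E →L[ℝ] X} (hπ : Function.Surjective π) {D : Set X} (hD : IsOpen D)
    {f : X → ℝ} (hf : ContinuousOn f D) (hc : ConvexOn ℝ D f) {z : E} (hz : π z ∈ D)
    (h : GateauxAt (π ⁻¹' D) (fun y => f (π y)) z) : GateauxAt D f (π z) := by
  obtain ⟨φ, hφ⟩ := h
  obtain ⟨L, r, hL, hr, hrD, hlip⟩ := exists_lip hD hf hc hz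
  obtain ⟨s, hs⟩ := π.toLinearMap.exists_rightInverse_of_surjective
    (LinearMap.range_eq_top.2 hπ)
  have hs' : ∀ x, π (s x) = x := fun x => LinearMap.congr_fun hs x
  have key : ∀ x : X, ∀ ε > 0, ∃ δ > 0, ∀ t : ℝ, 0 < |t| → |t| < δ →
      π z + t • x ∈ D ∧ |(f (π z + t • x) - f (π z)) / t - φ (s x)| < ε := by
    intro x ε hε
    obtain ⟨δ, hδ, h⟩ := hφ (s x) ε hε
    refine ⟨δ, hδ, fun t ht1 ht2 => ?_⟩
    have := h t ht1 ht2
    simpa [hs'] using this
  let ψ : X →ₗ[ℝ] ℝ := φ.toLinearMap.comp s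
  have hψ : ∀ x, ‖ψ x‖ ≤ L * ‖x‖ := by
    intro x
    refine le_of_forall_pos_lt_add fun ε hε => ?_
    obtain ⟨δ, hδ, h⟩ := key x ε hε
    set t : ℝ := min (δ / 2) (r / (2 * (‖x‖ + 1))) with ht
    have ht0 : 0 < t := lt_min (by positivity) (by positivity)
    have habs : |t| = t := abs_of_pos ht0
    have h1 := (h t (by rw [habs]; exact ht0) (by
      rw [habs]; exact (min_le_left _ _).trans_lt (by linarith))).2
    have hb : π z + t • x ∈ Metric.ball (π z) r := by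
      rw [Metric.mem_ball, dist_eq_norm, add_sub_cancel_left, norm_smul, Real.norm_eq_abs, habs]
      have h2 : t ≤ r / (2 * (‖x‖ + 1)) := min_le_right _ _
      rw [le_div_iff₀ (by positivity)] at h2
      nlinarith [norm_nonneg x]
    have h3 := hlip _ hb _ (Metric.mem_ball_self hr)
    rw [add_sub_cancel_left, norm_smul, Real.norm_eq_abs, habs] at h3
    have h4 : |(f (π z + t • x) - f (π z)) / t| ≤ L * ‖x‖ := by
      rw [abs_div, habs, div_le_iff₀ ht0]
      calc _ ≤ _ := h3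
        _ = _ := by ring
    have h5 : ‖ψ x‖ = |φ (s x)| := rfl
    rw [h5]
    have h6 := abs_sub_abs_le_abs_sub (φ (s x)) ((f (π z + t • x) - f (π z)) / t)
    rw [abs_sub_comm] at h6
    linarith
  exact ⟨ψ.mkContinuous L hψ, key⟩

theorem lifts_of {π : E →L[ℝ] X} [IsTopologicalAddGroup E] [ContinuousSMul ℝ E]
    (hπ : Function.Surjective π)
    (hfd : ∀ B : Set E, Bornology.IsVonNBounded ℝ B →
      FiniteDimensional ℝ (Submodule.span ℝ B)) : Lifts π := by
  intro D hD _ f hf hc z hz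
  have hdown := gateaux_down hπ hD hf hc hz
  have hup : GateauxAt D f (π z) → FrechetAt (π ⁻¹' D) (fun y => f (π y)) z := by
    rintro ⟨φ, hφ⟩
    refine ⟨φ.comp π, fun B hB ε hε => ?_⟩
    have hTB : TotallyBounded (π '' B) := by
      have h1 : Bornology.IsBounded (π '' B) := by
        have h2 : Bornology.IsVonNBounded ℝ (π '' B) := hB.image π
        exact NormedSpace.isVonNBounded_iff ℝ |>.1 h2
      haveI := hfd B hB
      let V : Submodule ℝ X := (Submodule.span ℝ B).map π.toLinearMap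
      haveI : FiniteDimensional ℝ V := inferInstance
      haveI : ProperSpace V := FiniteDimensional.proper ℝ V
      have h3 : π '' B ⊆ V := by
        rintro _ ⟨b, hb, rfl⟩
        exact ⟨b, Submodule.subset_span hb, rfl⟩
      have h4 : TotallyBounded ((↑) ⁻¹' (π '' B) : Set V) := by
        have h5 : Bornology.IsBounded ((↑) ⁻¹' (π '' B) : Set V) := by
          obtain ⟨M, hM⟩ := h1.exists_norm_le
          exact (isBounded_iff_forall_norm_le).2 ⟨M, fun y hy => hM _ hy⟩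
        exact h5.isCompact_closure.totallyBounded.subset subset_closure
      have h6 := h4.image (uniformContinuous_subtype_val (p := fun x => x ∈ V))
      refine h6.subset ?_
      rintro x hx
      exact ⟨⟨x, h3 hx⟩, hx, rfl⟩
    obtain ⟨δ, hδ, h⟩ := unif hD hf hc hz hφ hTB hε
    refine ⟨δ, hδ, fun t ht1 ht2 x hx => ?_⟩
    have := h t ht1 ht2 (π x) ⟨x, hx, rfl⟩
    simpa using this
  exact ⟨⟨fun h => hdown h.gateaux, hup⟩, ⟨hdown, fun h => (hup h).gateaux⟩⟩

/-- A Gâteaux differentiability space passes the property to its continuous linear images. -/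
theorem gds_of_surj {π : E →L[ℝ] X} (hπ : Function.Surjective π) (h : IsGDS E) : IsGDS X := by
  intro D hne hD hDc f hf hc
  obtain ⟨S, hS1, hS2, hS3⟩ := h (π ⁻¹' D) (by
    obtain ⟨x, hx⟩ := hne
    obtain ⟨y, rfl⟩ := hπ x
    exact ⟨y, hx⟩) (hD.preimage π.continuous) (hDc.linear_preimage π.toLinearMap)
    (fun y => f (π y)) (hf.comp π.continuous.continuousOn (fun y hy => hy)) (by
      refine ⟨hDc.linear_preimage π.toLinearMap, fun x hx y hy a b ha hb hab => ?_⟩
      have := hc.2 hx hy ha hb hab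
      simpa using this)
  refine ⟨π '' S, ?_, ?_, ?_⟩
  · rintro _ ⟨y, hy, rfl⟩
    exact hS1 hy
  · intro x hx
    obtain ⟨y, rfl⟩ := hπ x
    exact image_closure_subset_closure_image π.continuous ⟨y, hS2 hx, rfl⟩
  · rintro _ ⟨y, hy, rfl⟩
    exact gateaux_down hπ hD hf hc (hS1 hy) (hS3 y hy)

end Pool.Agent.Y496.BA
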