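import Pool.Agent.Y496.BA.A

/-!
The Banach space `ℓ¹` over an index set of size continuum: size, separating sequence of
functionals, every Banach space of size at most the continuum is a quotient.
-/

set_option autoImplicit false

open Set Cardinal Topology Filter

namespace Pool.Agent.Y496.BA

/-- `ℓ¹(I)` -/
abbrev L1 (I : Type) : Type := lp (fun _ : I => ℝ) 1

variable {I : Type}

lemma summable_norm (x : L1 I) : Summable fun i => ‖x i‖ := by
  have := (lp.memℓp x).summable (by simp)
  simpa using this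

lemma norm_L1 (x : L1 I) : ‖x‖ = ∑' i, ‖x i‖ := by
  have := lp.norm_eq_tsum_rpow (p := 1) (by simp) x
  simpa using this

section quot

variable {X : Type} [NormedAddCommGroup X] [NormedSpace ℝ X] [CompleteSpace X]

lemma summable_d (d : I → X) (hd : ∀ i, ‖d i‖ ≤ 1) (x : L1 I) : Summable fun i => x i • d i := by
  refine Summable.of_norm_bounded (summable_norm x) fun i => ?_
  rw [norm_smul]
  exact mul_le_of_le_one_right (norm_nonneg _) (hd i)

/-- the map `x ↦ ∑ x i • d i` -/
noncomputable def Q (d : I → X) (hd : ∀ i, ‖d i‖ ≤ 1) : L1 I →L[ℝ] X :=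
  LinearMap.mkContinuous
    { toFun := fun x => ∑' i, x i • d i
      map_add' := fun x y => by
        rw [← (summable_d d hd x).tsum_add (summable_d d hd y)]
        exact tsum_congr fun i => by simp [add_smul]
      map_smul' := fun c x => by
        rw [RingHom.id_apply, ← tsum_const_smul'']
        exact tsum_congr fun i => by simp [mul_smul] }
    1 (fun x => by
      rw [one_mul, norm_L1]
      refine tsum_of_norm_bounded (summable_norm x).hasSum fun i => ?_
      rw [norm_smul]
      exact mul_le_of_le_one_right (norm_nonneg _) (hd i))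

lemma Q_apply (d : I → X) (hd : ∀ i, ‖d i‖ ≤ 1) (x : L1 I) : Q d hd x = ∑' i, x i • d i := rfl

lemma Q_single [DecidableEq I] (d : I → X) (hd : ∀ i, ‖d i‖ ≤ 1) (i : I) (a : ℝ) :
    Q d hd (lp.single 1 i a) = a • d i := by
  rw [Q_apply, tsum_eq_single i]
  · rw [lp.single_apply_self]
  · intro j hj
    rw [lp.single_apply_ne _ _ _ hj, zero_smul]

lemma exists_Q (hI : #I = 𝔠) (hX : #X ≤ 𝔠) : ∃ π : L1 I →L[ℝ] X, Function.Surjective π := by
  classical
  have h1 : #(Metric.closedBall (0 : X) 1) ≤ #I := by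
    rw [hI]
    exact (Cardinal.mk_set_le _).trans hX
  obtain ⟨e⟩ := h1
  have : Nonempty (Metric.closedBall (0 : X) 1) := ⟨⟨0, by simp⟩⟩
  obtain ⟨g, hs⟩ : ∃ g : I → Metric.closedBall (0 : X) 1, Function.Surjective g :=
    ⟨Function.invFun e, Function.invFun_surjective e.injective⟩
  let d : I → X := fun i => (g i : X)
  have hd : ∀ i, ‖d i‖ ≤ 1 := fun i => mem_closedBall_zero_iff.1 (g i).2
  refine ⟨Q d hd, fun v => ?_⟩
  by_cases hv : v = 0
  · exact ⟨0, by rw [map_zero, hv]⟩
  · have hv' : ‖v‖ ≠ 0 := norm_ne_zero_iff.2 hv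
    obtain ⟨i, hi⟩ := hs ⟨‖v‖⁻¹ • v, by simp [norm_smul, hv']⟩
    refine ⟨lp.single 1 i ‖v‖, ?_⟩
    rw [Q_single]
    have : d i = ‖v‖⁻¹ • v := congrArg Subtype.val hi
    rw [this, smul_smul, mul_inv_cancel₀ hv', one_smul]

end quot

lemma card_L1 (hI : #I = 𝔠) : #(L1 I) ≤ 𝔠 := by
  classical
  let F : (I →₀ ℝ) → L1 I := fun v => ∑ i ∈ v.support, lp.single 1 i (v i)
  have hdense : ∀ x : L1 I, x ∈ closure (range F) := by
    intro x
    have h := lp.hasSum_single (E := fun _ : I => ℝ) (p := 1) (by simp) x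
    refine mem_closure_of_tendsto h (Eventually.of_forall fun s => ?_)
    refine ⟨Finsupp.onFinset s (fun i => if i ∈ s then x i else 0)
      (fun i hi => by by_contra h; simp [h] at hi), ?_⟩
    change ∑ i ∈ (Finsupp.onFinset s _ _).support, _ = _
    have h1 : (Finsupp.onFinset s (fun i => if i ∈ s then x i else 0)
      (fun i hi => by by_contra h; simp [h] at hi)).support ⊆ s :=
      Finsupp.support_onFinset_subset
    rw [Finset.sum_subset h1 (by
      intro i _ hi
      rw [Finsupp.notMem_support_iff] at hi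
      rw [hi, lp.single_zero])]
    refine Finset.sum_congr rfl fun i hi => ?_
    simp [hi]
  have hcardF : #(range F) ≤ 𝔠 := by
    refine Cardinal.mk_range_le.trans ?_
    haveI : Infinite I := by
      rw [Cardinal.infinite_iff, hI]
      exact Cardinal.aleph0_le_continuum
    rw [Cardinal.mk_finsupp_of_infinite]
    simp [hI, Cardinal.mk_real]
  choose u hu hlim using fun x => mem_closure_iff_seq_limit.1 (hdense x)
  have hinj : Function.Injective (fun x : L1 I => fun n => (⟨u x n, hu x n⟩ : range F)) := by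
    intro x y hxy
    have h1 : u x = u y := by
      funext n
      exact congrArg Subtype.val (congrFun hxy n)
    exact tendsto_nhds_unique (hlim x) (h1 ▸ hlim y)
  calc #(L1 I) ≤ #(ℕ → range F) := Cardinal.mk_le_of_injective hinj
    _ = #(range F) ^ (ℵ₀ : Cardinal.{0}) := by simp
    _ ≤ 𝔠 ^ (ℵ₀ : Cardinal.{0}) := Cardinal.power_le_power_right hcardF
    _ = 𝔠 := Cardinal.continuum_power_aleph0

lemma not_fd_L1 [Infinite I] : ¬ FiniteDimensional ℝ (L1 I) := by
  classical
  intro h
  have hli : LinearIndependent ℝ (fun i : I => (lp.single 1 i (1 : ℝ) : L1 I)) := by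
    rw [linearIndependent_iff']
    intro s g hg i hi
    have h1 := congrArg (fun v : L1 I => v i) hg
    simp only [lp.coeFn_sum, Finset.sum_apply] at h1
    rw [Finset.sum_eq_single i] at h1
    · simpa using h1
    · intro j _ hj
      simp [lp.coeFn_single, Pi.single_apply, hj.symm]
    · intro h2
      exact absurd hi h2
  exact (hli.finite : Finite I).false

/-- a separating sequence of functionals -/
lemma exists_sep (hI : #I = 𝔠) :
    ∃ e : ℕ → L1 I →L[ℝ] ℝ, ∀ x, (∀ n, e n x = 0) → x = 0 := by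
  classical
  have h1 : #I ≤ #ℝ := by rw [hI, Cardinal.mk_real]
  obtain ⟨r⟩ := h1
  let d : ℚ → I → ℝ := fun q i => if r i < q then 1 else 0
  have hd : ∀ q i, ‖d q i‖ ≤ 1 := by
    intro q i
    simp only [d]
    split_ifs <;> simp
  obtain ⟨en, hen⟩ := exists_surjective_nat ℚ
  refine ⟨fun n => Q (d (en n)) (hd (en n)), fun x hx => ?_⟩
  have hq : ∀ q, ∑' i, x i * d q i = 0 := by
    intro q
    obtain ⟨n, rfl⟩ := hen q
    have := hx n
    rw [Q_apply] at this
    simpa using this
  by_contra hne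
  obtain ⟨i₀, hi₀⟩ : ∃ i, x i ≠ 0 := by
    by_contra hcon
    push Not at hcon
    exact hne (lp.ext (funext hcon))
  have hs := summable_norm x
  have hpos : 0 < ‖x i₀‖ := norm_pos_iff.2 hi₀
  obtain ⟨F, hF0, hF⟩ : ∃ F : Finset I, i₀ ∈ F ∧ ∑' i : {i // i ∉ F}, ‖x i‖ < ‖x i₀‖ := by
    have h1 := tendsto_tsum_compl_atTop_zero (fun i => ‖x i‖)
    have h2 := (h1.eventually (gt_mem_nhds hpos)).and (eventually_ge_atTop {i₀})
    obtain ⟨F, h3, h4⟩ := h2.exists
    exact ⟨F, h4 (Finset.mem_singleton_self _), h3⟩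
  -- rational interval around `r i₀`
  obtain ⟨a, b, ha, hb, hab⟩ : ∃ a b : ℚ, (a : ℝ) < r i₀ ∧ r i₀ < b ∧
      ∀ i ∈ F, i ≠ i₀ → ¬ ((a : ℝ) ≤ r i ∧ r i < b) := by
    obtain ⟨δ, hδ, hδ'⟩ : ∃ δ > 0, ∀ i ∈ F, i ≠ i₀ → δ ≤ |r i - r i₀| := by
      clear hF hF0
      induction F using Finset.induction_on with
      | empty => exact ⟨1, one_pos, by simp⟩
      | insert j s _ ih =>
        obtain ⟨e, he, h⟩ := ih
        by_cases hj : j = i₀
        · refine ⟨e, he, fun i hi hne => ?_⟩
          rw [Finset.mem_insert] at hi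
          rcases hi with rfl | hi
          · exact absurd hj hne
          · exact h i hi hne
        · have hj' : r j - r i₀ ≠ 0 := sub_ne_zero.2 fun h => hj (r.injective h)
          refine ⟨min e |r j - r i₀|, lt_min he (abs_pos.2 hj'), fun i hi hne => ?_⟩
          rw [Finset.mem_insert] at hi
          rcases hi with rfl | hi
          · exact min_le_right _ _
          · exact (min_le_left _ _).trans (h i hi hne)
    obtain ⟨a, ha1, ha2⟩ := exists_rat_btwn (show r i₀ - δ < r i₀ by linarith)
    obtain ⟨b, hb1, hb2⟩ := exists_rat_btwn (show r i₀ < r i₀ + δ by linarith)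
    refine ⟨a, b, ha2, hb1, fun i hi hne h => ?_⟩
    have h3 := hδ' i hi hne
    have h4 : |r i - r i₀| < δ := by
      rw [abs_lt]
      constructor <;> linarith [h.1, h.2]
    linarith
  have hsa : Summable fun i => x i * d a i := by
    have := summable_d (d a) (hd a) x
    simpa using this
  have hsb : Summable fun i => x i * d b i := by
    have := summable_d (d b) (hd b) x
    simpa using this
  have hdiff : ∑' i, (x i * d b i - x i * d a i) = 0 := by
    rw [hsb.tsum_sub hsa, hq, hq, sub_zero]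
  set g : I → ℝ := fun i => x i * d b i - x i * d a i with hg
  have hgs : Summable g := hsb.sub hsa
  have hg0 : g i₀ = x i₀ := by
    simp only [hg, d]
    rw [if_pos hb, if_neg (not_lt.2 ha.le)]
    ring
  have hgF : ∀ i ∈ F, i ≠ i₀ → g i = 0 := by
    intro i hi hne
    have h2 := hab i hi hne
    have hab' : (a : ℝ) < b := ha.trans hb
    simp only [hg, d]
    by_cases h3 : r i < a
    · rw [if_pos h3, if_pos (h3.trans hab')]; ring
    · rw [if_neg h3, if_neg]
      · ring
      · intro h4
        exact h2 ⟨not_lt.1 h3, h4⟩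
  have hgle : ∀ i, ‖g i‖ ≤ ‖x i‖ := by
    intro i
    simp only [hg, d]
    split_ifs <;> simp
  have h5 := hgs.sum_add_tsum_subtype_compl F
  rw [hdiff, Finset.sum_eq_single i₀ (fun i hi hne => hgF i hi hne) (fun h => absurd hF0 h),
    hg0] at h5
  have h6 : ‖∑' i : {i // i ∉ F}, g i‖ ≤ ∑' i : {i // i ∉ F}, ‖x i‖ :=
    tsum_of_norm_bounded (hs.subtype _).hasSum fun i => hgle i
  have h7 : x i₀ = - ∑' i : {i // i ∉ F}, g i := by linarith
  have h8 : ‖x i₀‖ = ‖∑' i : {i // i ∉ F}, g i‖ := by rw [h7, norm_neg]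
  linarith

end Pool.Agent.Y496.BA
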