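import Pool.Agent.Y496.BA.B

set_option autoImplicit false

open Set Cardinal Topology Filter H647R3.Baire

namespace Pool.Agent.Y496.BA

/-- Hausdorff, locally convex, Baire, with separable strong dual, bounded sets are
finite-dimensional. -/
def Tame (E : Type) [AddCommGroup E] [Module ℝ E] [TopologicalSpace E] : Prop :=
  T2Space E ∧ LocallyConvexSpace ℝ E ∧ BaireSpace E ∧
    TopologicalSpace.SeparableSpace (E →L[ℝ] ℝ) ∧
    ∀ B : Set E, Bornology.IsVonNBounded ℝ B → FiniteDimensional ℝ (Submodule.span ℝ B)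

theorem finer {X : Type} [NormedAddCommGroup X] [NormedSpace ℝ X] [CompleteSpace X]
    (hcard : #X ≤ 𝔠) (hinf : ¬ FiniteDimensional ℝ X)
    (he : ∃ e : ℕ → X →L[ℝ] ℝ, ∀ x, (∀ n, e n x = 0) → x = 0) :
    ∃ (E : Type) (_ : AddCommGroup E) (_ : Module ℝ E) (_ : TopologicalSpace E)
    (_ : IsTopologicalAddGroup E) (_ : ContinuousSMul ℝ E), Tame E ∧
    ∃ π : E →L[ℝ] X, Function.Bijective π ∧ Lifts π := by
  obtain ⟨e₀, he₀⟩ := he
  obtain ⟨T, hT1, hT2⟩ := exists_T hcard
  have hbaire : BaireSpace (Es T) := baire T hinf hT2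
  have hbd := bounded_fd T hT1
  let π : Es T →L[ℝ] X := (ContinuousLinearMap.fst ℝ X (I → ℝ)).comp (Submodule.subtypeL _)
  have hbij : Function.Bijective π := by
    constructor
    · intro z w h
      rw [← pt_fst z, ← pt_fst w]
      exact congrArg (pt T) h
    · intro x
      exact ⟨pt T x, rfl⟩
  let e : ℕ → Es T →L[ℝ] ℝ := fun n => (e₀ n).comp π
  have hsep : TopologicalSpace.SeparableSpace (Es T →L[ℝ] ℝ) := by
    apply separable_dual hbd e
    intro z hz
    have h1 : π z = 0 := he₀ _ hz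
    exact hbij.1 (h1.trans (map_zero π).symm)
  exact ⟨Es T, inferInstance, inferInstance, inferInstance, inferInstance, inferInstance,
    ⟨inferInstance, inferInstance, hbaire, hsep, hbd⟩, π, hbij, lifts_of hbij.2 hbd⟩

theorem universal : ∃ (E : Type) (_ : AddCommGroup E) (_ : Module ℝ E) (_ : TopologicalSpace E)
    (_ : IsTopologicalAddGroup E) (_ : ContinuousSMul ℝ E), Tame E ∧
    ∀ (X : Type) [NormedAddCommGroup X] [NormedSpace ℝ X] [CompleteSpace X], #X ≤ 𝔠 →
      ∃ π : E →L[ℝ] X, Function.Surjective π ∧ Lifts π := by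
  haveI : Infinite I := by
    rw [Cardinal.infinite_iff, mk_I]
    exact Cardinal.aleph0_le_continuum
  obtain ⟨E, i1, i2, i3, i4, i5, hE, π, hπ, -⟩ :=
    finer (card_L1 mk_I) (not_fd_L1 (I := I)) (exists_sep mk_I)
  refine ⟨E, i1, i2, i3, i4, i5, hE, fun X _ _ _ hX => ?_⟩
  obtain ⟨q, hq⟩ := exists_Q (X := X) mk_I hX
  have hs : Function.Surjective (q.comp π) := hq.comp hπ.2
  exact ⟨q.comp π, hs, lifts_of hs hE.2.2.2.2⟩

/-- `ℓ∞` with the function `limsup`. -/
theorem nowhere {E : Type} [AddCommGroup E] [Module ℝ E] [TopologicalSpace E]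
    (h : ∀ (X : Type) [NormedAddCommGroup X] [NormedSpace ℝ X] [CompleteSpace X], #X ≤ 𝔠 →
      ∃ π : E →L[ℝ] X, Function.Surjective π ∧ Lifts π) :
    ∃ f : E → ℝ, Continuous f ∧ ConvexOn ℝ Set.univ f ∧ ∀ x, ¬ GateauxAt Set.univ f x := by
  obtain ⟨π, hs, hl⟩ := h Linf card_Linf
  refine ⟨fun z => ls (π z), ls_lip.continuous.comp π.continuous, ?_, fun z hz => ?_⟩
  · refine ⟨convex_univ, fun x _ y _ a b ha hb hab => ?_⟩
    have := ls_convex.2 (Set.mem_univ (π x)) (Set.mem_univ (π y)) ha hb hab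
    simpa using this
  · have h1 := (hl univ isOpen_univ convex_univ ls ls_lip.continuous.continuousOn ls_convex z
      (mem_univ _)).2.1 hz
    obtain ⟨φ, hφ⟩ := h1
    obtain ⟨h, hh⟩ := ls_dir (π z)
    obtain ⟨δ, hδ, hd⟩ := hφ h (1/2) (by norm_num)
    have h1 := (hd (δ / 2) (by rw [abs_of_pos (by positivity)]; positivity)
      (by rw [abs_of_pos (by positivity)]; linarith)).2
    have h2 := (hd (-(δ / 2)) (by rw [abs_neg, abs_of_pos (by positivity)]; positivity)
      (by rw [abs_neg, abs_of_pos (by positivity)]; linarith)).2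
    have h3 := (hh (δ / 2)).1 (by positivity)
    have h4 := (hh (-(δ / 2))).2 (by linarith)
    have h5 : 1 ≤ (ls (π z + (δ / 2) • h) - ls (π z)) / (δ / 2) := by
      rw [le_div_iff₀ (by positivity)]
      linarith
    have h6 : (ls (π z + (-(δ / 2)) • h) - ls (π z)) / (-(δ / 2)) ≤ 0 := by
      apply div_nonpos_of_nonneg_of_nonpos
      · linarith
      · linarith
    have h7 := (abs_lt.1 h1).2
    have h8 := (abs_lt.1 h2).1
    linarith

end Pool.Agent.Y496.BA
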