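import Pool.Agent.H647R3.BaireC

/-!
A transfinite construction of a linear injection `s : X → Y` and a linear `T : X → ℝ^I`.
-/

set_option autoImplicit false

open Set Cardinal H647R3.Baire

namespace Pool.Agent.Y496.BA

section rec

variable {X Y : Type} [NormedAddCommGroup X] [NormedSpace ℝ X]
  [NormedAddCommGroup Y] [NormedSpace ℝ Y]

/-- forbidden vectors of `X` -/
def forbX (S : I → Set I) (sq : I → ℕ → X) (α : I)
    (prev : ∀ γ, γ < α → Option (X × Y × (I → ℝ))) : Set X :=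
  {x | ∃ γ, ∃ h : γ < α, ∃ q, prev γ h = some q ∧ q.1 = x} ∪
    {x | ∃ β ∈ S α, ∃ n, x = sq β n}

/-- forbidden vectors of `Y` -/
def forbY (α : I) (prev : ∀ γ, γ < α → Option (X × Y × (I → ℝ))) : Set Y :=
  {w | ∃ γ, ∃ h : γ < α, ∃ q, prev γ h = some q ∧ q.2.1 = w}

open Classical in
/-- one step -/
noncomputable def pickS (R : I → Set (X × Y × (I → ℝ))) (S : I → Set I) (sq : I → ℕ → X) (α : I)
    (prev : ∀ γ, γ < α → Option (X × Y × (I → ℝ))) : Option (X × Y × (I → ℝ)) :=
  if h : ∃ q ∈ R α, q.1 ∉ Submodule.span ℝ (forbX S sq α prev) ∧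
      q.2.1 ∉ Submodule.span ℝ (forbY α prev) then some h.choose else none

/-- the picked points -/
noncomputable def pk (R : I → Set (X × Y × (I → ℝ))) (S : I → Set I) (sq : I → ℕ → X) :
    I → Option (X × Y × (I → ℝ)) :=
  (wellFounded_lt : WellFounded ((· < ·) : I → I → Prop)).fix (pickS R S sq)

variable {R : I → Set (X × Y × (I → ℝ))} {S : I → Set I} {sq : I → ℕ → X}

lemma pk_eq (α : I) :
    pk R S sq α = pickS R S sq α (fun γ _ => pk R S sq γ) := by
  unfold pk
  rw [WellFounded.fix_eq]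

lemma pk_some {α : I} {q : X × Y × (I → ℝ)} (h : pk R S sq α = some q) :
    q ∈ R α ∧ q.1 ∉ Submodule.span ℝ (forbX S sq α (fun γ _ => pk R S sq γ)) ∧
      q.2.1 ∉ Submodule.span ℝ (forbY α (fun γ _ => pk R S sq γ)) := by
  rw [pk_eq, pickS] at h
  split_ifs at h with hh
  have := hh.choose_spec
  rw [Option.some.injEq] at h
  rw [h] at this
  exact this

lemma card_forbX (hS : ∀ α, (S α).Countable) (α : I) :
    #(forbX S sq α (fun γ _ => pk R S sq γ)) < 𝔠 := by
  have h1 : #({x | ∃ γ, ∃ _ : γ < α, ∃ q, pk R S sq γ = some q ∧ q.1 = x} : Set X) < 𝔠 := by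
    have hsub : ({x | ∃ γ, ∃ _ : γ < α, ∃ q, pk R S sq γ = some q ∧ q.1 = x} : Set X) ⊆
        (fun γ => ((pk R S sq γ).elim 0 Prod.fst : X)) '' (Iio α) := by
      rintro x ⟨γ, hγ, q, hq, rfl⟩
      refine ⟨γ, hγ, ?_⟩
      simp [hq]
    refine lt_of_le_of_lt ((Cardinal.mk_le_mk_of_subset hsub).trans Cardinal.mk_image_le) ?_
    exact Cardinal.mk_Iio_toType_ord_lt α
  have h2 : #({x | ∃ β ∈ S α, ∃ n, x = sq β n} : Set X) < 𝔠 := by
    have hc : ({x | ∃ β ∈ S α, ∃ n, x = sq β n} : Set X).Countable := by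
      have : ({x | ∃ β ∈ S α, ∃ n, x = sq β n} : Set X) =
          ⋃ β ∈ S α, range (sq β) := by
        ext x
        simp [eq_comm]
      rw [this]
      exact (hS α).biUnion fun β _ => countable_range _
    exact lt_of_le_of_lt hc.le_aleph0 Cardinal.aleph0_lt_continuum
  exact lt_of_le_of_lt (Cardinal.mk_union_le _ _)
    (Cardinal.add_lt_of_lt Cardinal.aleph0_le_continuum h1 h2)

lemma card_forbY (α : I) :
    #(forbY α (fun γ _ => pk R S sq γ)) < 𝔠 := by
  have hsub : (forbY α (fun γ _ => pk R S sq γ)) ⊆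
      (fun γ => ((pk R S sq γ).elim 0 (fun q => q.2.1) : Y)) '' (Iio α) := by
    rintro x ⟨γ, hγ, q, hq, rfl⟩
    refine ⟨γ, hγ, ?_⟩
    simp [hq]
  refine lt_of_le_of_lt ((Cardinal.mk_le_mk_of_subset hsub).trans Cardinal.mk_image_le) ?_
  exact Cardinal.mk_Iio_toType_ord_lt α

lemma pk_ne_none {α : I} (h : ∃ q ∈ R α, q.1 ∉ Submodule.span ℝ
      (forbX S sq α (fun γ _ => pk R S sq γ)) ∧
      q.2.1 ∉ Submodule.span ℝ (forbY α (fun γ _ => pk R S sq γ))) :
    ∃ q, pk R S sq α = some q := by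
  rw [pk_eq, pickS, dif_pos h]
  exact ⟨_, rfl⟩

end rec

/-- a functional with prescribed values -/
lemma exists_phi' {X : Type} [AddCommGroup X] [Module ℝ X] {J : Type} [LinearOrder J]
    (px : J → X) (py : J → ℝ) (sqb : ℕ → X)
    (key : ∀ j : J, px j ∉ Submodule.span ℝ (range sqb ∪ px '' (Iio j))) :
    ∃ φ : X →ₗ[ℝ] ℝ, (LinearIndependent ℝ sqb → ∀ n, φ (sqb n) = n) ∧
      ∀ j, φ (px j) = py j := by
  classical
  by_cases hli : LinearIndependent ℝ sqb
  · let v : ℕ ⊕ₗ J → X := fun i => Sum.elim sqb px (ofLex i)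
    have hv : LinearIndependent ℝ v := by
      apply li_of_notMem
      intro i
      induction i using Lex.rec with
      | _ i =>
      cases i with
      | inl n =>
        have h1 : v (toLex (Sum.inl n)) = sqb n := rfl
        rw [h1]
        have h2 : sqb n ∉ Submodule.span ℝ (sqb '' Iio n) :=
          hli.notMem_span_image (by simp)
        intro h3
        apply h2
        refine Submodule.span_mono ?_ h3
        rintro x ⟨i', hi', rfl⟩
        induction i' using Lex.rec with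
        | _ i' =>
        cases i' with
        | inl m =>
          refine ⟨m, ?_, rfl⟩
          simpa using hi'
        | inr j => simp at hi'
      | inr j =>
        have h1 : v (toLex (Sum.inr j)) = px j := rfl
        rw [h1]
        intro h3
        apply key j
        refine Submodule.span_mono ?_ h3
        rintro x ⟨i', hi', rfl⟩
        induction i' using Lex.rec with
        | _ i' =>
        cases i' with
        | inl m => exact Or.inl ⟨m, rfl⟩
        | inr j' =>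
          refine Or.inr ⟨j', ?_, rfl⟩
          simpa using hi'
    obtain ⟨φ, hφ⟩ := exists_functional v hv
      (fun i => Sum.elim (fun n : ℕ => (n : ℝ)) py (ofLex i))
    refine ⟨φ, fun _ n => ?_, fun j => ?_⟩
    · exact hφ (toLex (Sum.inl n))
    · exact hφ (toLex (Sum.inr j))
  · have hv : LinearIndependent ℝ px := by
      apply li_of_notMem
      intro j h3
      exact key j (Submodule.span_mono subset_union_right h3)
    obtain ⟨φ, hφ⟩ := exists_functional _ hv py
    exact ⟨φ, fun h => absurd h hli, hφ⟩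

section main

variable {X Y : Type} [NormedAddCommGroup X] [NormedSpace ℝ X]
  [NormedAddCommGroup Y] [NormedSpace ℝ Y]

theorem exists_sT (hX : #X ≤ 𝔠) (hY : #Y ≤ 𝔠)
    (hXi : ∀ W : Set X, #W < 𝔠 → ∃ x, x ∉ Submodule.span ℝ W)
    (hYi : ∀ V : Set Y, #V < 𝔠 → ∃ w, w ∉ Submodule.span ℝ V) :
    ∃ (s : X →ₗ[ℝ] Y) (T : X →ₗ[ℝ] (I → ℝ)), Function.Bijective s ∧
    (∀ z : ℕ → X, LinearIndependent ℝ z → ∃ β, ∀ n, T (z n) β = n) ∧
    (∀ c : Code (X × Y), (∀ (W : Set X) (V : Set Y), #W < 𝔠 → #V < 𝔠 →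
      ∃ σ x w y, G c σ (x, w) y ∧ x ∉ Submodule.span ℝ W ∧ w ∉ Submodule.span ℝ V) →
      ∃ σ x, G c σ (x, s x) (T x)) := by
  classical
  have hXY : #(X × Y) ≤ 𝔠 := by
    rw [Cardinal.mk_prod, Cardinal.lift_id, Cardinal.lift_id]
    calc #X * #Y ≤ 𝔠 * 𝔠 := by gcongr
      _ = 𝔠 := by simp
  have hreq : #(Code (X × Y) ⊕ (X ⊕ Y)) ≤ 𝔠 := by
    rw [Cardinal.mk_sum, Cardinal.mk_sum, Cardinal.lift_id, Cardinal.lift_id, Cardinal.lift_id,
      Cardinal.lift_id]
    calc #(Code (X × Y)) + (#X + #Y) ≤ 𝔠 + (𝔠 + 𝔠) := by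
          gcongr
          exact card_code hXY
      _ = 𝔠 := by simp
  obtain ⟨req, hreq⟩ := exists_surj (Code (X × Y) ⊕ (X ⊕ Y)) hreq
  obtain ⟨sq, hsq⟩ := exists_surj (ℕ → X) (card_seq hX)
  let R : I → Set (X × Y × (I → ℝ)) := fun α =>
    Sum.elim (fun c : Code (X × Y) => {q | ∃ σ, G c σ (q.1, q.2.1) q.2.2})
      (Sum.elim (fun x : X => {q | q.1 = x}) (fun w : Y => {q | q.2.1 = w})) (req α)
  let S : I → Set I := fun α => Sum.elim (fun c : Code (X × Y) => supp c) (fun _ => ∅) (req α)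
  have hS : ∀ α, (S α).Countable := by
    intro α
    simp only [S]
    cases req α with
    | inl c => exact supp_countable c
    | inr x => exact countable_empty
  let J : Type := {α : I // ∃ q, pk R S sq α = some q}
  choose qq hqq using fun j : J => j.2
  have hqq' : ∀ (j : J) q, pk R S sq j.1 = some q → qq j = q := fun j q h =>
    Option.some.inj ((hqq j).symm.trans h)
  let px : J → X := fun j => (qq j).1
  let pw : J → Y := fun j => (qq j).2.1
  have hprevX : ∀ (α : I) (j : J), j.1 < α →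
      px j ∈ forbX S sq α (fun γ _ => pk R S sq γ) := fun α j hj =>
    Or.inl ⟨j.1, hj, qq j, hqq j, rfl⟩
  have hprevY : ∀ (α : I) (j : J), j.1 < α →
      pw j ∈ forbY α (fun γ _ => pk R S sq γ) := fun α j hj =>
    ⟨j.1, hj, qq j, hqq j, rfl⟩
  have hlx : LinearIndependent ℝ px := by
    apply li_of_notMem
    intro j h3
    apply (pk_some (hqq j)).2.1
    refine Submodule.span_mono ?_ h3
    rintro _ ⟨i, hi, rfl⟩
    exact hprevX j.1 i hi
  have hlw : LinearIndependent ℝ pw := by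
    apply li_of_notMem
    intro j h3
    apply (pk_some (hqq j)).2.2
    refine Submodule.span_mono ?_ h3
    rintro _ ⟨i, hi, rfl⟩
    exact hprevY j.1 i hi
  have hspan : ⊤ ≤ Submodule.span ℝ (range px) := by
    intro x _
    obtain ⟨α, hα⟩ := hreq (Sum.inr (Sum.inl x))
    have hSα : S α = ∅ := by simp [S, hα]
    by_cases hx : x ∈ Submodule.span ℝ (forbX S sq α (fun γ _ => pk R S sq γ))
    · refine Submodule.span_mono ?_ hx
      rintro y (⟨γ, hγ, q, hq, rfl⟩ | ⟨β, hβ, -⟩)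
      · refine ⟨⟨γ, q, hq⟩, ?_⟩
        have h2 : qq ⟨γ, q, hq⟩ = q := hqq' _ _ hq
        simp only [px, h2]
      · rw [hSα] at hβ
        exact absurd hβ (notMem_empty _)
    · obtain ⟨w, hw⟩ := hYi _ (card_forbY (R := R) (S := S) (sq := sq) α)
      obtain ⟨q, hq⟩ := pk_ne_none (R := R) (S := S) (sq := sq) (α := α)
        ⟨(x, w, 0), by simp [R, hα], hx, hw⟩
      have h1 := (pk_some hq).1
      have h2 : q.1 = x := by simpa [R, hα] using h1
      apply Submodule.subset_span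
      refine ⟨⟨α, q, hq⟩, ?_⟩
      have h3 : qq ⟨α, q, hq⟩ = q := hqq' _ _ hq
      simp only [px, h3, h2]
  have hspanY : ⊤ ≤ Submodule.span ℝ (range pw) := by
    intro w _
    obtain ⟨α, hα⟩ := hreq (Sum.inr (Sum.inr w))
    have hSα : S α = ∅ := by simp [S, hα]
    by_cases hw : w ∈ Submodule.span ℝ (forbY α (fun γ _ => pk R S sq γ))
    · refine Submodule.span_mono ?_ hw
      rintro y ⟨γ, hγ, q, hq, rfl⟩
      refine ⟨⟨γ, q, hq⟩, ?_⟩
      have h2 : qq ⟨γ, q, hq⟩ = q := hqq' _ _ hq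
      simp only [pw, h2]
    · obtain ⟨x, hx⟩ := hXi _ (card_forbX (R := R) (S := S) (sq := sq) hS α)
      obtain ⟨q, hq⟩ := pk_ne_none (R := R) (S := S) (sq := sq) (α := α)
        ⟨(x, w, 0), by simp [R, hα], hx, hw⟩
      have h1 := (pk_some hq).1
      have h2 : q.2.1 = w := by simpa [R, hα] using h1
      apply Submodule.subset_span
      refine ⟨⟨α, q, hq⟩, ?_⟩
      have h3 : qq ⟨α, q, hq⟩ = q := hqq' _ _ hq
      simp only [pw, h3, h2]
  let b := Module.Basis.mk hlx hspan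
  have hb : ∀ j, b j = px j := fun j => Module.Basis.mk_apply hlx hspan j
  let s : X →ₗ[ℝ] Y := b.constr ℝ pw
  have hs : ∀ j, s (px j) = pw j := fun j => by
    rw [← hb j]
    exact b.constr_basis ℝ pw j
  have hsinj : Function.Injective s := by
    intro x y hxy
    have h1 : ∀ z, s z = Finsupp.linearCombination ℝ pw (b.repr z) := fun z => by
      simp only [s, Module.Basis.constr_apply, Finsupp.linearCombination_apply]
    rw [h1, h1] at hxy
    exact b.repr.injective (hlw hxy)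
  have hssurj : Function.Surjective s := by
    rw [← LinearMap.range_eq_top, eq_top_iff]
    refine hspanY.trans ?_
    rw [Submodule.span_le]
    rintro _ ⟨j, rfl⟩
    exact ⟨px j, hs j⟩
  have hphi : ∀ β : I, ∃ φ : X →ₗ[ℝ] ℝ, (LinearIndependent ℝ (sq β) → ∀ n, φ (sq β n) = n) ∧
      ∀ j : J, β ∈ S j.1 → φ (px j) = (qq j).2.2 β := by
    intro β
    obtain ⟨φ, h1, h2⟩ := exists_phi' (J := {j : J // β ∈ S j.1}) (fun j => px j.1)
      (fun j => (qq j.1).2.2 β) (sq β) (by
        intro j hj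
        apply (pk_some (hqq j.1)).2.1
        refine Submodule.span_mono ?_ hj
        rintro x (⟨n, rfl⟩ | ⟨i, hi, rfl⟩)
        · exact Or.inr ⟨β, j.2, n, rfl⟩
        · exact hprevX _ _ hi)
    exact ⟨φ, h1, fun j hj => h2 ⟨j, hj⟩⟩
  choose φ hφ1 hφ2 using hphi
  refine ⟨s, LinearMap.pi φ, ⟨hsinj, hssurj⟩, fun z hz => ?_, fun c hc => ?_⟩
  · obtain ⟨β, rfl⟩ := hsq z
    exact ⟨β, fun n => hφ1 β hz n⟩
  · obtain ⟨α, hα⟩ := hreq (Sum.inl c)
    obtain ⟨σ, x, w, y, h1, h2, h3⟩ := hc _ _ (card_forbX (R := R) (S := S) (sq := sq) hS α)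
      (card_forbY (R := R) (S := S) (sq := sq) α)
    obtain ⟨q, hq⟩ := pk_ne_none (R := R) (S := S) (sq := sq) (α := α)
        ⟨(x, w, y), by simpa [R, hα] using ⟨σ, h1⟩, h2, h3⟩
    have h4 := (pk_some hq).1
    have h5 : ∃ σ, G c σ (q.1, q.2.1) q.2.2 := by simpa [R, hα] using h4
    obtain ⟨τ, hτ⟩ := h5
    let j : J := ⟨α, q, hq⟩
    have h6 : qq j = q := hqq' _ _ hq
    have h7 : px j = q.1 := by simp only [px, h6]
    have h8 : s q.1 = q.2.1 := by rw [← h7, hs j]; simp only [pw, h6]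
    refine ⟨τ, q.1, G_congr (y := q.2.2) (fun β hβ => ?_) (by rw [h8]; exact hτ)⟩
    have h9 : β ∈ S j.1 := by
      change β ∈ S α
      simpa [S, hα] using hβ
    have := hφ2 β j h9
    rw [h7, h6] at this
    exact this.symm

end main

end Pool.Agent.Y496.BA
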