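import Pool.Agent.Y496.BA.D

/-!
The Baire property of the graph.
-/

set_option autoImplicit false

open Set Cardinal Topology H647R3.Baire

namespace Pool.Agent.Y496.BA

variable {X Y : Type} [NormedAddCommGroup X] [NormedSpace ℝ X]
  [NormedAddCommGroup Y] [NormedSpace ℝ Y]

/-- the graph of `s`, a normed space -/
abbrev Gr (s : X →ₗ[ℝ] Y) : Type := ↥(LinearMap.graph s)

/-- the point of the graph over `x` -/
def gp (s : X →ₗ[ℝ] Y) (x : X) : Gr s := ⟨(x, s x), rfl⟩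

/-- first projection -/
def p1 (s : X →ₗ[ℝ] Y) : Gr s →ₗ[ℝ] X := (LinearMap.fst ℝ X Y).comp (Submodule.subtype _)

/-- second projection -/
def p2 (s : X →ₗ[ℝ] Y) : Gr s →ₗ[ℝ] Y := (LinearMap.snd ℝ X Y).comp (Submodule.subtype _)

lemma gr_snd {s : X →ₗ[ℝ] Y} (z : Gr s) : z.1.2 = s z.1.1 := by
  have := z.2
  rwa [LinearMap.mem_graph_iff] at this

lemma gp_fst {s : X →ₗ[ℝ] Y} (z : Gr s) : gp s z.1.1 = z := by
  apply Subtype.ext
  apply Prod.ext
  · rfl
  · exact (gr_snd z).symm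

lemma p1_inj (s : X →ₗ[ℝ] Y) : Function.Injective (p1 s) := by
  intro z w h
  rw [← gp_fst z, ← gp_fst w]
  exact congrArg (gp s) h

lemma p2_inj {s : X →ₗ[ℝ] Y} (hs : Function.Injective s) : Function.Injective (p2 s) := by
  intro z w h
  apply p1_inj s
  apply hs
  have h1 := gr_snd z
  have h2 := gr_snd w
  change z.1.2 = w.1.2 at h
  rw [h1, h2] at h
  exact h

/-- the functionals on the graph -/
def TN (s : X →ₗ[ℝ] Y) (T : X →ₗ[ℝ] (I → ℝ)) : Gr s →ₗ[ℝ] (I → ℝ) := T.comp (p1 s)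

lemma not_fd_gr (s : X →ₗ[ℝ] Y) (hinf : ¬ FiniteDimensional ℝ X) :
    ¬ FiniteDimensional ℝ (Gr s) := by
  intro h
  apply hinf
  exact Module.Finite.of_surjective (p1 s) fun x => ⟨gp s x, rfl⟩

lemma step' {s : X →ₗ[ℝ] Y} (hs : Function.Injective s) (T : Gr s →ₗ[ℝ] (I → ℝ))
    (hinf : ¬ FiniteDimensional ℝ (Gr s)) {κ : Type} [Fintype κ]
    {U : Set (Es T)} (hU : IsOpen U) (hUd : Dense U) (B : κ → Bx (Gr s)) (hB : ∀ k, 0 < (B k).ε)
    {η : ℝ} (hη : 0 < η) :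
    ∃ B' : κ → Bx (Gr s), (∀ k, 0 < (B' k).ε ∧ (B' k).ε ≤ η ∧ (B' k).Sub T (B k) ∧
      ∀ x, (B' k).mem T x → pt T x ∈ U) ∧
      (∀ x : κ → X, (∀ k, ‖x k - (B' k).a.1.1‖ ≤ (B' k).ε) → LinearIndependent ℝ x) ∧
      (∀ x : κ → Y, (∀ k, ‖x k - (B' k).a.1.2‖ ≤ (B' k).ε) → LinearIndependent ℝ x) := by
  classical
  obtain ⟨z, hz1, hz2⟩ := exists_li T hinf (fun k => U ∩ (B k).op T)
    (fun k => hU.inter ((B k).isOpen_op T))
    (fun k => by
      obtain ⟨w, hw⟩ := (dense_iff_inter_open.1 hUd) _ ((B k).isOpen_op T)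
        ((B k).op_nonempty T (hB k))
      exact ⟨w, hw.2, hw.1⟩)
  have hzx : LinearIndependent ℝ (fun k => (z k).1.1) :=
    hz2.map' (p1 s) (LinearMap.ker_eq_bot.2 (p1_inj s))
  have hzy : LinearIndependent ℝ (fun k => (z k).1.2) :=
    hz2.map' (p2 s) (LinearMap.ker_eq_bot.2 (p2_inj hs))
  -- openness of linear independence
  have hopen : ∃ δ > 0, (∀ x : κ → X, (∀ k, ‖x k - (z k).1.1‖ ≤ δ) → LinearIndependent ℝ x) ∧
      (∀ x : κ → Y, (∀ k, ‖x k - (z k).1.2‖ ≤ δ) → LinearIndependent ℝ x) := by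
    have h1 : IsOpen {f : κ → X | LinearIndependent ℝ f} := isOpen_setOfPred_linearIndependent
    have h1' : IsOpen {f : κ → Y | LinearIndependent ℝ f} := isOpen_setOfPred_linearIndependent
    obtain ⟨δ, hδ, h2⟩ := Metric.nhds_basis_closedBall.mem_iff.1 (h1.mem_nhds hzx)
    obtain ⟨δ', hδ', h2'⟩ := Metric.nhds_basis_closedBall.mem_iff.1 (h1'.mem_nhds hzy)
    refine ⟨min δ δ', lt_min hδ hδ', fun x hx => h2 ?_, fun x hx => h2' ?_⟩
    · rw [Metric.mem_closedBall, dist_pi_le_iff hδ.le]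
      intro k
      rw [dist_eq_norm]
      exact (hx k).trans (min_le_left _ _)
    · rw [Metric.mem_closedBall, dist_pi_le_iff hδ'.le]
      intro k
      rw [dist_eq_norm]
      exact (hx k).trans (min_le_right _ _)
  obtain ⟨δ, hδ, hδ2, hδ3⟩ := hopen
  have hk : ∀ k, ∃ b' : Bx (Gr s), b'.a = z k ∧ 0 < b'.ε ∧ b'.ε ≤ η ∧ b'.ε ≤ δ ∧
      b'.Sub T (B k) ∧ ∀ x, b'.mem T x → pt T x ∈ U := by
    intro k
    obtain ⟨ε, hε, F, hF⟩ := nhds_box hU (hz1 k).1
    have hop := (hz1 k).2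
    have hop1 : ‖z k - (B k).a‖ < (B k).ε := hop.1
    have hop2 : ∀ β ∈ (B k).F, |T (z k) β - T (B k).a β| < (B k).ε := hop.2
    have hmin : ∃ r > 0, ∀ β ∈ (B k).F, |T (z k) β - T (B k).a β| + r ≤ (B k).ε := by
      revert hop2
      induction (B k).F using Finset.induction_on with
      | empty => exact fun _ => ⟨1, one_pos, by simp⟩
      | insert β s _ ih =>
        intro hop2
        obtain ⟨r, h1, h2⟩ := ih (fun γ hγ => hop2 γ (Finset.mem_insert_of_mem hγ))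
        have h3 := hop2 β (Finset.mem_insert_self _ _)
        refine ⟨min r ((B k).ε - |T (z k) β - T (B k).a β|), lt_min h1 (by linarith), ?_⟩
        intro γ hγ
        rw [Finset.mem_insert] at hγ
        rcases hγ with rfl | hγ
        · have := min_le_right r ((B k).ε - |T (z k) γ - T (B k).a γ|)
          linarith
        · have := min_le_left r ((B k).ε - |T (z k) β - T (B k).a β|)
          have := h2 γ hγ
          linarith
    obtain ⟨r, hr, hr2⟩ := hmin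
    set e : ℝ := min (min η δ) (min (min ε r) ((B k).ε - ‖z k - (B k).a‖)) with he
    have he0 : 0 < e := lt_min (lt_min hη hδ) (lt_min (lt_min hε hr) (by linarith))
    have he1 : e ≤ η := (min_le_left _ _).trans (min_le_left _ _)
    have he2 : e ≤ δ := (min_le_left _ _).trans (min_le_right _ _)
    have he3 : e ≤ ε := (min_le_right _ _).trans ((min_le_left _ _).trans (min_le_left _ _))
    have he4 : e ≤ r := (min_le_right _ _).trans ((min_le_left _ _).trans (min_le_right _ _))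
    have he5 : e ≤ (B k).ε - ‖z k - (B k).a‖ := (min_le_right _ _).trans (min_le_right _ _)
    refine ⟨⟨z k, e, F ∪ (B k).F⟩, rfl, he0, he1, he2, ⟨?_, ?_, ?_⟩, ?_⟩
    · change ‖z k - (B k).a‖ + e ≤ (B k).ε
      linarith
    · intro β hβ
      change |T (z k) β - T (B k).a β| + e ≤ (B k).ε
      have := hr2 β hβ
      linarith
    · exact Finset.subset_union_right
    · intro x hx
      apply hF x
      · exact hx.1.trans he3
      · intro β hβ
        exact (hx.2 β (Finset.mem_union_left _ hβ)).trans he3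
  choose B' hB1 hB2 hB3 hB4 hB5 hB6 using hk
  refine ⟨B', fun k => ⟨hB2 k, hB3 k, hB5 k, hB6 k⟩, fun x hx => hδ2 x fun k => ?_,
    fun x hx => hδ3 x fun k => ?_⟩
  · rw [← hB1 k]
    exact (hx k).trans (hB4 k)
  · rw [← hB1 k]
    exact (hx k).trans (hB4 k)

/-- the limit point of a nested sequence of boxes -/
lemma exists_branch' [CompleteSpace X] [CompleteSpace Y] {s : X →ₗ[ℝ] Y}
    (T : Gr s →ₗ[ℝ] (I → ℝ)) (b : ℕ → Bx (Gr s))
    (hb : ∀ n, (b (n + 1)).Sub T (b n)) (hpos : ∀ n, 0 < (b n).ε)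
    (hε : ∀ n, (b (n + 1)).ε ≤ (1/2 : ℝ) ^ (n + 1)) :
    ∃ (x : X × Y) (y : I → ℝ), ∀ n, ‖x - (b n).a.1‖ ≤ (b n).ε ∧
      ∀ β ∈ (b n).F, |y β - T (b n).a β| ≤ (b n).ε := by
  have hmono : ∀ n m, n ≤ m → (b m).Sub T (b n) := by
    intro n m hnm
    induction hnm with
    | refl => exact Bx.Sub.refl' T _
    | step _ ih => exact (hb _).trans ih
  have hε' : ∀ n, 1 ≤ n → (b n).ε ≤ (1/2 : ℝ) ^ n := by
    intro n hn
    obtain ⟨m, rfl⟩ := Nat.exists_eq_add_of_le' hn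
    exact hε m
  have hsubn : ∀ n m, n ≤ m → ‖(b m).a.1 - (b n).a.1‖ + (b m).ε ≤ (b n).ε := fun n m hnm =>
    (hmono n m hnm).1
  have hx : ∃ x : X × Y, ∀ n, 1 ≤ n → dist x (b n).a.1 ≤ (b n).ε := by
    apply exists_limit (fun n => (b n).a.1) (fun n => (b n).ε) 1 _ hε'
    intro n m _ hnm
    rw [dist_eq_norm]
    have := hsubn n m hnm
    have := hpos m
    linarith
  obtain ⟨x, hx⟩ := hx
  have hy : ∀ β, ∃ r : ℝ, ∀ n, β ∈ (b n).F → |r - T (b n).a β| ≤ (b n).ε := by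
    intro β
    by_cases hβ : ∃ n, β ∈ (b n).F
    · obtain ⟨n₀, hn₀⟩ := hβ
      have hF : ∀ n, n₀ ≤ n → β ∈ (b n).F := fun n hn => (hmono n₀ n hn).2.2 hn₀
      have hlim : ∃ r : ℝ, ∀ n, n₀ + 1 ≤ n → dist r (T (b n).a β) ≤ (b n).ε := by
        apply exists_limit (fun n => T (b n).a β) (fun n => (b n).ε) (n₀ + 1) _
          (fun n hn => hε' n (by omega))
        intro n m hn hnm
        rw [Real.dist_eq]
        have := (hmono n m hnm).2.1 β (hF n (by omega))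
        have := hpos m
        linarith
      obtain ⟨r, hr⟩ := hlim
      refine ⟨r, fun n hn => ?_⟩
      have h1 := hr (n + n₀ + 1) (by omega)
      have h2 := (hmono n (n + n₀ + 1) (by omega)).2.1 β hn
      rw [Real.dist_eq] at h1
      have h3 := abs_sub_le r (T (b (n + n₀ + 1)).a β) (T (b n).a β)
      linarith
    · push Not at hβ
      exact ⟨0, fun n hn => absurd hn (hβ n)⟩
  choose y hy using hy
  refine ⟨x, y, fun n => ⟨?_, fun β hβ => hy β n hβ⟩⟩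
  have h1 := hx (n + 1) (by omega)
  have h2 := hsubn n (n + 1) (by omega)
  rw [dist_eq_norm] at h1
  have h3 := norm_sub_le_norm_sub_add_norm_sub x (b (n + 1)).a.1 (b n).a.1
  linarith

lemma card_bad (x : (ℕ → Bool) → X) (hx : LinearIndependent ℝ x) (W : Set X) (hW : #W < 𝔠) :
    #{σ | x σ ∈ Submodule.span ℝ W} < 𝔠 := by
  let x' : {σ | x σ ∈ Submodule.span ℝ W} → Submodule.span ℝ W := fun σ => ⟨x σ.1, σ.2⟩
  have hx' : LinearIndependent ℝ x' := by
    apply LinearIndependent.of_comp (Submodule.subtype _)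
    exact hx.comp _ Subtype.val_injective
  exact (hx'.cardinal_le_rank.trans (rank_span_le W)).trans_lt hW

/-- linearly independent families indexed by the branches escape small spans simultaneously -/
lemma escape2 (x : (ℕ → Bool) → X) (hx : LinearIndependent ℝ x) (y : (ℕ → Bool) → Y)
    (hy : LinearIndependent ℝ y) (W : Set X) (hW : #W < 𝔠) (V : Set Y) (hV : #V < 𝔠) :
    ∃ σ, x σ ∉ Submodule.span ℝ W ∧ y σ ∉ Submodule.span ℝ V := by
  by_contra hcon
  push Not at hcon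
  have h1 : (univ : Set (ℕ → Bool)) ⊆ {σ | x σ ∈ Submodule.span ℝ W} ∪
      {σ | y σ ∈ Submodule.span ℝ V} := by
    intro σ _
    by_cases h : x σ ∈ Submodule.span ℝ W
    · exact Or.inl h
    · exact Or.inr (hcon σ h)
  have h2 := (Cardinal.mk_le_mk_of_subset h1).trans (Cardinal.mk_union_le _ _)
  have h3 : #(univ : Set (ℕ → Bool)) = 𝔠 := by simp
  rw [h3] at h2
  exact absurd h2 (not_le.2 (Cardinal.add_lt_of_lt Cardinal.aleph0_le_continuum
    (card_bad x hx W hW) (card_bad y hy V hV)))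

theorem baire' [CompleteSpace X] [CompleteSpace Y] {s : X →ₗ[ℝ] Y} (hs : Function.Injective s)
    (T : X →ₗ[ℝ] (I → ℝ)) (hinf : ¬ FiniteDimensional ℝ X)
    (hT : ∀ c : Code (X × Y), (∀ (W : Set X) (V : Set Y), #W < 𝔠 → #V < 𝔠 →
      ∃ σ x w y, G c σ (x, w) y ∧ x ∉ Submodule.span ℝ W ∧ w ∉ Submodule.span ℝ V) →
      ∃ σ x, G c σ (x, s x) (T x)) : BaireSpace (Es (TN s T)) := by
  classical
  constructor
  intro U hUo hUd
  rw [dense_iff_inter_open]
  rintro O hO ⟨z₀, hz₀⟩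
  obtain ⟨ε₀, hε₀, F₀, hF₀⟩ := nhds_box hO hz₀
  let Lv : ℕ → Type := fun n => {B : (Fin n → Bool) → Bx (Gr s) // ∀ w, 0 < (B w).ε}
  have hstep : ∀ n (B : Lv n), ∃ B' : Lv (n + 1),
      (∀ w, (B'.1 w).ε ≤ (1/2 : ℝ) ^ (n + 1) ∧ (B'.1 w).Sub (TN s T) (B.1 (Fin.init w)) ∧
      ∀ x, (B'.1 w).mem (TN s T) x → pt (TN s T) x ∈ U n) ∧
      (∀ x : (Fin (n + 1) → Bool) → X, (∀ w, ‖x w - (B'.1 w).a.1.1‖ ≤ (B'.1 w).ε) →
        LinearIndependent ℝ x) ∧
      (∀ x : (Fin (n + 1) → Bool) → Y, (∀ w, ‖x w - (B'.1 w).a.1.2‖ ≤ (B'.1 w).ε) →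
        LinearIndependent ℝ x) := by
    intro n B
    obtain ⟨B', h1, h2⟩ := step' hs (TN s T) (not_fd_gr s hinf) (hUo n) (hUd n)
      (fun w : Fin (n + 1) → Bool => B.1 (Fin.init w)) (fun w => B.2 _)
      (η := (1/2 : ℝ) ^ (n + 1)) (by positivity)
    exact ⟨⟨B', fun w => (h1 w).1⟩, fun w => (h1 w).2, h2⟩
  choose next hnext1 hnext2 hnext3 using hstep
  let L : ∀ n, Lv n := fun n => Nat.rec (motive := Lv)
    ⟨fun _ => ⟨z₀.1.1, ε₀, F₀⟩, fun _ => hε₀⟩ (fun n B => next n B) n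
  have hL0 : ∀ w, (L 0).1 w = ⟨z₀.1.1, ε₀, F₀⟩ := fun w => rfl
  have hLs : ∀ n, L (n + 1) = next n (L n) := fun n => rfl
  have hsub : ∀ (σ : ℕ → Bool) n, ((L (n + 1)).1 (fun i => σ i)).Sub (TN s T)
      ((L n).1 (fun i => σ i)) := by
    intro σ n
    rw [hLs]
    exact (hnext1 n (L n) (fun i => σ i)).2.1
  have hbr : ∀ σ : ℕ → Bool, ∃ (x : X × Y) (y : I → ℝ), ∀ n,
      ‖x - ((L n).1 (fun i => σ i)).a.1‖ ≤ ((L n).1 (fun i => σ i)).ε ∧
      ∀ β ∈ ((L n).1 (fun i => σ i)).F, |y β - (TN s T) ((L n).1 (fun i => σ i)).a β| ≤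
        ((L n).1 (fun i => σ i)).ε := by
    intro σ
    apply exists_branch' (TN s T) (fun n => (L n).1 (fun i => σ i)) (hsub σ) (fun n => (L n).2 _)
    intro n
    rw [hLs]
    exact (hnext1 n (L n) (fun i => σ i)).1
  choose x y hxy using hbr
  have hx1 : ∀ σ n, ‖(x σ).1 - ((L n).1 (fun i => σ i)).a.1.1‖ ≤ ((L n).1 (fun i => σ i)).ε :=
    fun σ n => (norm_fst_le (x σ - ((L n).1 (fun i => σ i)).a.1)).trans (hxy σ n).1
  have hx2 : ∀ σ n, ‖(x σ).2 - ((L n).1 (fun i => σ i)).a.1.2‖ ≤ ((L n).1 (fun i => σ i)).ε :=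
    fun σ n => (norm_snd_le (x σ - ((L n).1 (fun i => σ i)).a.1)).trans (hxy σ n).1
  have hli1 : LinearIndependent ℝ (fun σ => (x σ).1) := by
    apply li_branches (fun σ => (x σ).1) (fun n w => ⟨((L n).1 w).a.1.1, ((L n).1 w).ε, ∅⟩)
      (fun n w => (L n).2 w)
    · intro n z hz
      refine hnext2 n (L n) z ?_
      intro w
      have := hz w
      rw [hLs] at this
      exact this
    · intro σ n
      exact hx1 σ n
  have hli2 : LinearIndependent ℝ (fun σ => (x σ).2) := by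
    apply li_branches (fun σ => (x σ).2) (fun n w => ⟨((L n).1 w).a.1.2, ((L n).1 w).ε, ∅⟩)
      (fun n w => (L n).2 w)
    · intro n z hz
      refine hnext3 n (L n) z ?_
      intro w
      have := hz w
      rw [hLs] at this
      exact this
    · intro σ n
      exact hx2 σ n
  let c : Code (X × Y) := fun t => (((L t.1).1 t.2).a.1, ((L t.1).1 t.2).ε,
    ((L t.1).1 t.2).F.toList.map (fun β => (β, (TN s T) ((L t.1).1 t.2).a β)))
  have hc : ∀ (σ : ℕ → Bool) (x : X × Y) (y : I → ℝ), G c σ x y ↔ ∀ n,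
      ‖x - ((L n).1 (fun i => σ i)).a.1‖ ≤ ((L n).1 (fun i => σ i)).ε ∧
      ∀ β ∈ ((L n).1 (fun i => σ i)).F, |y β - (TN s T) ((L n).1 (fun i => σ i)).a β| ≤
        ((L n).1 (fun i => σ i)).ε := by
    intro σ x y
    simp only [G, c, List.mem_map, Finset.mem_toList, forall_exists_index, and_imp,
      forall_apply_eq_imp_iff₂]
  obtain ⟨σ, x', hx'⟩ := hT c (fun W V hW hV => by
    obtain ⟨σ, hσ1, hσ2⟩ := escape2 _ hli1 _ hli2 W hW V hV
    exact ⟨σ, (x σ).1, (x σ).2, y σ, (hc _ _ _).2 (hxy σ), hσ1, hσ2⟩)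
  rw [hc] at hx'
  refine ⟨pt (TN s T) (gp s x'), ?_, ?_⟩
  · have := hx' 0
    rw [hL0] at this
    exact hF₀ (gp s x') this.1 this.2
  · rw [mem_iInter]
    intro n
    have h1 := hx' (n + 1)
    exact (hnext1 n (L n) (fun i => σ i)).2.2 (gp s x') h1

end Pool.Agent.Y496.BA
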