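import Pool.Agent.Y496.BA.C
import Pool.Agent.Y496.BA.E

/-!
Every Banach space of size at most the continuum has a finer tame topology; the bound on the size
is necessary.
-/

set_option autoImplicit false

open Set Cardinal Topology Filter H647R3.Baire

namespace Pool.Agent.Y496.BA

/-- an infinite-dimensional Banach space contains a linearly independent family of size
continuum -/
theorem exists_li_branches {X : Type} [NormedAddCommGroup X] [NormedSpace ℝ X] [CompleteSpace X]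
    (hinf : ¬ FiniteDimensional ℝ X) : ∃ x : (ℕ → Bool) → X, LinearIndependent ℝ x := by
  classical
  let T : X →ₗ[ℝ] (I → ℝ) := 0
  let Lv : ℕ → Type := fun n => {B : (Fin n → Bool) → Bx X // ∀ w, 0 < (B w).ε}
  have hstep : ∀ n (B : Lv n), ∃ B' : Lv (n + 1),
      (∀ w, (B'.1 w).ε ≤ (1/2 : ℝ) ^ (n + 1) ∧ (B'.1 w).Sub T (B.1 (Fin.init w)) ∧
      ∀ x, (B'.1 w).mem T x → pt T x ∈ (univ : Set (Es T))) ∧
      ∀ x : (Fin (n + 1) → Bool) → X, (∀ w, ‖x w - (B'.1 w).a‖ ≤ (B'.1 w).ε) →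
        LinearIndependent ℝ x := by
    intro n B
    obtain ⟨B', h1, h2⟩ := step T hinf (isOpen_univ) (dense_univ) (fun w : Fin (n + 1) → Bool =>
      B.1 (Fin.init w)) (fun w => B.2 _) (η := (1/2 : ℝ) ^ (n + 1)) (by positivity)
    exact ⟨⟨B', fun w => (h1 w).1⟩, fun w => (h1 w).2, h2⟩
  choose next hnext1 hnext2 using hstep
  let L : ∀ n, Lv n := fun n => Nat.rec (motive := Lv)
    ⟨fun _ => ⟨0, 1, ∅⟩, fun _ => one_pos⟩ (fun n B => next n B) n
  have hLs : ∀ n, L (n + 1) = next n (L n) := fun n => rfl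
  have hsub : ∀ (σ : ℕ → Bool) n, ((L (n + 1)).1 (fun i => σ i)).Sub T ((L n).1 (fun i => σ i)) := by
    intro σ n
    rw [hLs]
    exact (hnext1 n (L n) (fun i => σ i)).2.1
  have hbr : ∀ σ : ℕ → Bool, ∃ (x : X) (y : I → ℝ), ∀ n,
      ‖x - ((L n).1 (fun i => σ i)).a‖ ≤ ((L n).1 (fun i => σ i)).ε ∧
      ∀ β ∈ ((L n).1 (fun i => σ i)).F, |y β - T ((L n).1 (fun i => σ i)).a β| ≤
        ((L n).1 (fun i => σ i)).ε := by
    intro σ
    apply exists_branch T (fun n => (L n).1 (fun i => σ i)) (hsub σ) (fun n => (L n).2 _)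
    intro n
    rw [hLs]
    exact (hnext1 n (L n) (fun i => σ i)).1
  choose x y hxy using hbr
  refine ⟨x, ?_⟩
  apply li_branches x (fun n => (L n).1) (fun n w => (L n).2 w)
  · intro n z hz
    refine hnext2 n (L n) z ?_
    intro w
    have := hz w
    rw [hLs] at this
    exact this
  · intro σ n
    exact (hxy σ n).1

lemma big {X : Type} [NormedAddCommGroup X] [NormedSpace ℝ X] [CompleteSpace X]
    (hinf : ¬ FiniteDimensional ℝ X) (V : Set X) (hV : #V < 𝔠) :
    ∃ w : X, w ∉ Submodule.span ℝ V := by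
  obtain ⟨x, hx⟩ := exists_li_branches hinf
  obtain ⟨σ, hσ⟩ := escape x hx V hV
  exact ⟨_, hσ⟩

theorem tame_of {N : Type} [NormedAddCommGroup N] [NormedSpace ℝ N]
    (T : N →ₗ[ℝ] (I → ℝ)) (hbaire : BaireSpace (Es T))
    (hT1 : ∀ z : ℕ → N, LinearIndependent ℝ z → ∃ β, ∀ n, T (z n) β = n)
    (e₀ : ℕ → N →L[ℝ] ℝ) (he₀ : ∀ y, (∀ n, e₀ n y = 0) → y = 0) :
    ∃ (E : Type) (_ : AddCommGroup E) (_ : Module ℝ E) (_ : TopologicalSpace E)
    (_ : IsTopologicalAddGroup E) (_ : ContinuousSMul ℝ E), Tame E ∧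
    ∃ ρ : E →L[ℝ] N, Function.Bijective ρ := by
  have hbd := bounded_fd T hT1
  let ρ : Es T →L[ℝ] N := (ContinuousLinearMap.fst ℝ N (I → ℝ)).comp (Submodule.subtypeL _)
  have hρ : Function.Bijective ρ := by
    constructor
    · intro z w h
      rw [← pt_fst z, ← pt_fst w]
      exact congrArg (pt T) h
    · intro x
      exact ⟨pt T x, rfl⟩
  let e : ℕ → Es T →L[ℝ] ℝ := fun n => (e₀ n).comp ρ
  have hsep : TopologicalSpace.SeparableSpace (Es T →L[ℝ] ℝ) := by
    apply separable_dual hbd e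
    intro z hz
    have h1 : ρ z = 0 := he₀ _ fun n => hz n
    exact hρ.1 (h1.trans (map_zero ρ).symm)
  exact ⟨Es T, inferInstance, inferInstance, inferInstance, inferInstance, inferInstance,
    ⟨inferInstance, inferInstance, hbaire, hsep, hbd⟩, ρ, hρ⟩

theorem finer_Y {X Y : Type} [NormedAddCommGroup X] [NormedSpace ℝ X] [CompleteSpace X]
    [NormedAddCommGroup Y] [NormedSpace ℝ Y] [CompleteSpace Y]
    (hcard : #X ≤ 𝔠) (hinf : ¬ FiniteDimensional ℝ X) (hY : #Y ≤ 𝔠)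
    (hYi : ¬ FiniteDimensional ℝ Y)
    (e₀ : ℕ → Y →L[ℝ] ℝ) (he₀ : ∀ y, (∀ n, e₀ n y = 0) → y = 0) :
    ∃ (E : Type) (_ : AddCommGroup E) (_ : Module ℝ E) (_ : TopologicalSpace E)
    (_ : IsTopologicalAddGroup E) (_ : ContinuousSMul ℝ E), Tame E ∧
    (∃ π : E →L[ℝ] X, Function.Bijective π) ∧ ∃ π : E →L[ℝ] Y, Function.Bijective π := by
  obtain ⟨s, T, hs, hT1, hT2⟩ := exists_sT hcard hY (big hinf) (big hYi)
  have hbaire := baire' hs.1 T hinf hT2
  let q1 : Gr s →L[ℝ] X := (ContinuousLinearMap.fst ℝ X Y).comp (Submodule.subtypeL _)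
  let q2 : Gr s →L[ℝ] Y := (ContinuousLinearMap.snd ℝ X Y).comp (Submodule.subtypeL _)
  have hq1 : Function.Bijective q1 := ⟨p1_inj s, fun x => ⟨gp s x, rfl⟩⟩
  have hq2 : Function.Bijective q2 := by
    refine ⟨p2_inj hs.1, fun w => ?_⟩
    obtain ⟨x, rfl⟩ := hs.2 w
    exact ⟨gp s x, rfl⟩
  obtain ⟨E, i1, i2, i3, i4, i5, hE, ρ, hρ⟩ := tame_of (N := Gr s) (TN s T) hbaire
    (fun z hz => by
      obtain ⟨β, hβ⟩ := hT1 (fun n => (z n).1.1)
        (hz.map' (p1 s) (LinearMap.ker_eq_bot.2 (p1_inj s)))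
      exact ⟨β, fun n => hβ n⟩)
    (fun n => (e₀ n).comp q2)
    (fun y hy => by
      have h1 : q2 y = 0 := he₀ _ fun n => hy n
      exact hq2.1 (h1.trans (map_zero q2).symm))
  exact ⟨E, i1, i2, i3, i4, i5, hE, ⟨q1.comp ρ, hq1.comp hρ⟩, ⟨q2.comp ρ, hq2.comp hρ⟩⟩

/-- Every infinite-dimensional Banach space of size at most the continuum has a finer tame
topology with all Banach spaces of size at most the continuum as continuous linear images. -/
theorem finer_univ {X : Type} [NormedAddCommGroup X] [NormedSpace ℝ X] [CompleteSpace X]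
    (hcard : #X ≤ 𝔠) (hinf : ¬ FiniteDimensional ℝ X) :
    ∃ (E : Type) (_ : AddCommGroup E) (_ : Module ℝ E) (_ : TopologicalSpace E)
    (_ : IsTopologicalAddGroup E) (_ : ContinuousSMul ℝ E), Tame E ∧
    (∃ π : E →L[ℝ] X, Function.Bijective π) ∧
    ∀ (Z : Type) [NormedAddCommGroup Z] [NormedSpace ℝ Z] [CompleteSpace Z], #Z ≤ 𝔠 →
      ∃ π : E →L[ℝ] Z, Function.Surjective π := by
  have : Infinite I := by
    rw [Cardinal.infinite_iff, mk_I]
    exact Cardinal.aleph0_le_continuum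
  obtain ⟨e₀, he₀⟩ := exists_sep mk_I
  obtain ⟨E, i1, i2, i3, i4, i5, hE, h1, π, hπ⟩ :=
    finer_Y hcard hinf (card_L1 mk_I) (not_fd_L1 (I := I)) e₀ he₀
  refine ⟨E, i1, i2, i3, i4, i5, hE, h1, fun Z _ _ _ hZ => ?_⟩
  obtain ⟨q, hq⟩ := exists_Q (X := Z) mk_I hZ
  exact ⟨q.comp π, hq.comp hπ.2⟩

/-- a Hausdorff locally convex space with separable strong dual has size at most the continuum -/
theorem card_of_sep {E : Type} [AddCommGroup E] [Module ℝ E] [TopologicalSpace E]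
    [IsTopologicalAddGroup E] [ContinuousSMul ℝ E] [T2Space E] [LocallyConvexSpace ℝ E]
    [TopologicalSpace.SeparableSpace (E →L[ℝ] ℝ)] : #E ≤ 𝔠 := by
  have : Nonempty (E →L[ℝ] ℝ) := ⟨0⟩
  let D : ℕ → E →L[ℝ] ℝ := TopologicalSpace.denseSeq _
  have hD : DenseRange D := TopologicalSpace.denseRange_denseSeq _
  have hinj : Function.Injective (fun x : E => fun n => D n x) := by
    intro x y hxy
    rw [← sub_eq_zero]
    apply SeparatingDual.eq_zero_of_forall_dual_eq_zero (R := ℝ)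
    intro φ
    have hc : Continuous fun φ : E →L[ℝ] ℝ => φ (x - y) := continuous_eval_const (x - y)
    have h1 : (fun φ : E →L[ℝ] ℝ => φ (x - y)) = fun _ => 0 := by
      apply hD.equalizer hc continuous_const
      funext n
      have h2 := congrFun hxy n
      simp only [Function.comp, map_sub]
      exact sub_eq_zero.2 h2
    exact congrFun h1 φ
  have h2 : #(ℕ → ℝ) = 𝔠 := by
    simp only [Cardinal.mk_pi, Cardinal.prod_const, Cardinal.mk_real, Cardinal.mk_nat,
      Cardinal.lift_aleph0, Cardinal.lift_continuum, Cardinal.continuum_power_aleph0]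
  exact (Cardinal.mk_le_of_injective hinj).trans h2.le

end Pool.Agent.Y496.BA
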